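import Mathlib
import Pool.Agent.H.MP_7a28e0_gt.A

set_option autoImplicit false

namespace Pool.Agent.Results.MP_7a28e0_gt.NotStrong

open Set Topology MeasureTheory Pool.Agent.H.MP_5382b1_gt Pool.Agent.H.MP_999952_gt
  Pool.Agent.H.MP_7a28e0_gt

/-- A point `x` of the Cantor set `ℕ → ZMod 2` is the characteristic function of `{n | x n = 1}`. -/
def IsSemifilter (S : Set (ℕ → ZMod 2)) : Prop :=
  S.Nonempty ∧ (∀ x ∈ S, {n | x n = 1}.Infinite) ∧
    ∀ x ∈ S, ∀ y : ℕ → ZMod 2, ({n | x n = 1} \ {n | y n = 1}).Finite → y ∈ S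

theorem result : ∃ S : Set (ℕ → ZMod 2), IsSemifilter S ∧
    ∃ U : Set S, IsClopen U ∧ U.Nonempty ∧ IsEmpty (U ≃ₜ S) := by
  classical
  obtain ⟨S, h1, h2, h3⟩ := Pool.Agent.H.MP_7a28e0_gt.core
  have h4 : ∀ x ∈ S, {n | x n = 1}.Infinite := fun x hx hf =>
    h1 x hx 0 (hf.preimage (f := fun m => Nat.pair 0 m) fun a _ b _ e => (Nat.pair_eq_pair.1 e).2)
  have h0 : (0 : V) ∉ S := fun h => h4 0 h (by simp)
  obtain ⟨y, hy⟩ : S.Nonempty := by
    obtain ⟨x, hx⟩ := h3 (fun _ => 0) measurable_const (by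
      intro h
      have := measure_union_null h (null_cnt (cfin 1))
      simp only [zero_add, Set.Infinite, ← compl_ofPred, compl_union_self, measure_univ] at this
      exact one_ne_zero this)
    exact ⟨x, by_contra fun h => hx (iff_of_false h h0)⟩
  obtain ⟨U, hU, hyU, hμ⟩ := small_nhd y 1
  refine ⟨S, ⟨⟨y, hy⟩, h4, h2⟩, {z | z.1 ∈ U}, hU.preimage continuous_subtype_val,
    ⟨⟨y, hy⟩, hyU⟩, ⟨fun h => ?_⟩⟩
  obtain ⟨f, f1, f2⟩ := extend S (fun z => (h.symm z).1.1) (by fun_prop)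
  let Z : Set V := Subtype.val '' {z : S | z.1 ∈ U}
  let e : {z : S | z.1 ∈ U} ≃ₜ Z := IsEmbedding.subtypeVal.homeomorphImage _
  have he : ∀ y, (e y).1 = y.1.1 := fun y => rfl
  obtain ⟨g, g1, g2⟩ := extend Z (fun z => (h (e.symm z)).1) (by fun_prop)
  let A : Set V := {x | g (f x) = x} ∩ f ⁻¹' U
  have hA : MeasurableSet A :=
    (measurableSet_eq_fun (g1.comp f1) measurable_id).inter (f1 hU.isOpen.measurableSet)
  have h5 : S ⊆ A := fun x hx => by
    refine ⟨?_, ?_⟩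
    · rw [mem_ofPred_eq, f2 ⟨x, hx⟩, ← he, g2, e.symm_apply_apply, h.apply_symm_apply]
    · rw [mem_preimage, f2 ⟨x, hx⟩]
      exact (h.symm _).2
  have h6 : μ {x | {n | (A.piecewise f 0 x + x) n = 1}.Infinite} = 0 := by
    by_contra h6
    obtain ⟨x, hx⟩ := h3 _ (f1.piecewise hA measurable_zero) h6
    by_cases hxA : x ∈ A
    · rw [piecewise_eq_of_mem _ _ _ hxA] at hx
      refine hx ⟨fun h7 => ?_, fun h7 => ?_⟩
      · rw [f2 ⟨x, h7⟩]
        exact (h.symm _).1.2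
      · rw [← show g (f x) = x from hxA.1, g2 ⟨f x, ⟨f x, h7⟩, hxA.2, rfl⟩]
        exact (h _).2
    · rw [piecewise_eq_of_notMem _ _ _ hxA] at hx
      exact hx (iff_of_false (fun h => hxA (h5 h)) h0)
  have h7 := piece f A U hA f1 (fun x hx z hz hxz => by
    rw [← show g (f x) = x from hx.1, hxz]
    exact hz.1) (fun x hx => hx.2) _ (cfin 1)
  have h8 : (univ : Set V) ⊆ (A ∩ {x | f x + x ∈ {z : V | {m | z m = 1}.Finite}}) ∪
      ({x | {n | (A.piecewise f 0 x + x) n = 1}.Infinite} ∪ {z : V | {m | z m = 1}.Finite}) := by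
    intro x _
    by_cases h9 : {n | (A.piecewise f 0 x + x) n = 1}.Finite
    · by_cases hxA : x ∈ A
      · rw [piecewise_eq_of_mem _ _ _ hxA] at h9
        exact Or.inl ⟨hxA, h9⟩
      · rw [piecewise_eq_of_notMem _ _ _ hxA, Pi.zero_apply, zero_add] at h9
        exact Or.inr (Or.inr h9)
    · exact Or.inr (Or.inl h9)
  have h9 := (measure_mono (μ := μ) h8).trans (measure_union_le _ _)
  rw [measure_union_null h6 (null_cnt (cfin 1)), add_zero, measure_univ] at h9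
  simpa using (h9.trans h7).trans_lt hμ

end Pool.Agent.Results.MP_7a28e0_gt.NotStrong
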